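import Pool.Agent.J6H34.RC.Plane3

/-!
# Meromorphic continuation of L-series of elliptic curves, in terms of sums over the places

Let `E` be an elliptic curve over a number field `K`.  For a finite place `v` let
`a_v = Nv - #(affine points of the minimal reduction)`, `e_v = Nv` if the reduction is good and `e_v = 0`
if it is bad, and let `t_k(v) = α^k + β^k` be the sums of the powers of the roots `α`, `β` of
`x² - a_v x + e_v`: `t_0 = 2`, `t_1 = a_v`, `t_{k+2} = a_v t_{k+1} - e_v t_k` (for good reduction
`t_k = Nv^k + 1 - #E_v(k_v^{(k)})`, where `k_v^{(k)}` is the extension of degree `k` of the residue field;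
for bad reduction `t_k = a_v^k`).  We consider the entire functions

`P_x(s) = ∑_v ∑_{k ≥ 1} t_k(v) Nv^{-ks} / (k Γ(1 + k log Nv / log x))`,  `x > 1`,

absolutely convergent sums over the places for EVERY complex `s`, and, for a real number `ε > 0` and an
integral function `n` of finite support in `Re a ≤ 3/2`, the elementary correction

`C_x(s) = ∑_a n(a) ∑_{k ≥ 1} e^{-εk(s - a)} / (k Γ(1 + εk / log x))`.

The theorem: the following are equivalent.

1. `L(E, s)` has a meromorphic continuation to `ℂ` (Q1 for `E`);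
2. for every `R > 0` there are `ε` and `n` such that `P_x(s) + C_x(s)` converges for `x → ∞`, uniformly for
   `|s| ≤ R`, with the error `O(1 / log x)`;
3. for every `R > 0` there are `ε` and `n` such that `P_x(s) + C_x(s)` is bounded on the disc `|s| ≤ R` along
   some sequence `x_k → ∞`.

So Q1 is the statement that the explicit sums in 3 over the places, with the numbers of points as
coefficients, are bounded; there is no hypothesis on the continuation in 2 and 3.

Proof.  The weight `1 / Γ(1 + u)` makes all the sums converge absolutely, and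
`P_x(s)` is a mean of the logarithm of `L(E, ·)` over a Hankel contour around the half-line to the left of
`s`.  3 → 1: by Montel's theorem a subsequence converges on the open disc, and for `Re s > 3/2` the limit is
`log L(E, s) - ∑ n(a) log(1 - e^{-ε(s - a)})`, which gives the continuation to the disc, with zeros and poles
at the points `a`; the continuations for all `R` are glued.  1 → 2: for `ε < 2π / (...)` the factor
`1 - e^{-ε(s - a)}` has on a large disc the only zero `a`, so `L(E, s) ∏ (1 - e^{-ε(s - a)})^{-n(a)}` has a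
holomorphic logarithm on a large disc, in particular on a half-strip `Re s > -R - 1`, `|Im s| < 4R + 4`, with
`n` the divisor of the continuation; the kernel `1 / Γ(1 + u)` decays so fast that the contour may be taken
inside of this half-strip.  The convergence for `Re s > 3/2` of the Euler product is proved with Hasse's bound
at the places which do not divide `6`, and the trivial bound at the others.
-/

set_option autoImplicit false

namespace Pool.Agent.Results.MP_0d9be2_nt.BoundedSums

open NumberField IsDedekindDomain Filter Topology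

/-- `W v` is, for every finite place `v`, an integral model of `E` with discriminant minimal at
`v`. -/
def MinimalModels {K : Type} [Field K] [NumberField K] (E : WeierstrassCurve K)
    (W : HeightOneSpectrum (𝓞 K) → WeierstrassCurve (𝓞 K)) : Prop :=
  ∀ v : HeightOneSpectrum (𝓞 K),
    (∃ C : WeierstrassCurve.VariableChange K, C • (W v).map (algebraMap (𝓞 K) K) = E) ∧
    ∀ W' : WeierstrassCurve (𝓞 K),
      (∃ C : WeierstrassCurve.VariableChange K, C • W'.map (algebraMap (𝓞 K) K) = E) →
      ∀ n : ℕ, (W v).Δ ∈ v.asIdeal ^ n → W'.Δ ∈ v.asIdeal ^ n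

section
variable {K : Type} [Field K] [NumberField K]

/-- `a_v`: the norm `Nv` minus the number of the affine points of the reduction of `W v`; if the
reduction is bad this is `1`, `-1`, `0` in the split multiplicative, non-split multiplicative, additive
case. -/
noncomputable def trace (W : HeightOneSpectrum (𝓞 K) → WeierstrassCurve (𝓞 K))
    (v : HeightOneSpectrum (𝓞 K)) : ℂ :=
  (Ideal.absNorm v.asIdeal : ℂ)
    - (Nat.card {xy : (𝓞 K ⧸ v.asIdeal) × (𝓞 K ⧸ v.asIdeal) //
        ((W v).map (Ideal.Quotient.mk v.asIdeal)).toAffine.Equation xy.1 xy.2} : ℂ)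

open Classical in
/-- `e_v`: the norm `Nv` if the reduction is good, and `0` if it is bad. -/
noncomputable def det (W : HeightOneSpectrum (𝓞 K) → WeierstrassCurve (𝓞 K))
    (v : HeightOneSpectrum (𝓞 K)) : ℂ :=
  if (W v).Δ ∈ v.asIdeal then 0 else (Ideal.absNorm v.asIdeal : ℂ)

/-- The `L`-series, as the Euler product over all finite places. -/
noncomputable def LSeries (W : HeightOneSpectrum (𝓞 K) → WeierstrassCurve (𝓞 K)) (s : ℂ) : ℂ :=
  ∏' v : HeightOneSpectrum (𝓞 K), (1 - trace W v * (Ideal.absNorm v.asIdeal : ℂ) ^ (-s) +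
    det W v * (Ideal.absNorm v.asIdeal : ℂ) ^ (-2 * s))⁻¹

/-- `t_k(v)`, the sum of the `k`-th powers of the roots of `x² - a_v x + e_v`. -/
noncomputable def powerTrace (W : HeightOneSpectrum (𝓞 K) → WeierstrassCurve (𝓞 K))
    (v : HeightOneSpectrum (𝓞 K)) : ℕ → ℂ
  | 0 => 2
  | 1 => trace W v
  | (k + 2) => trace W v * powerTrace W v (k + 1) - det W v * powerTrace W v k

/-- The sum `∑_v ∑_{k ≥ 1} t_k(v) Nv^{-ks} / (k Γ(1 + k log Nv / log x))` over the places. -/
noncomputable def pointSum (W : HeightOneSpectrum (𝓞 K) → WeierstrassCurve (𝓞 K)) (x : ℝ)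
    (s : ℂ) : ℂ :=
  ∑' z : HeightOneSpectrum (𝓞 K) × ℕ, powerTrace W z.1 (z.2 + 1) / ((z.2 : ℂ) + 1) *
    (Ideal.absNorm z.1.asIdeal : ℂ) ^ (-(((z.2 : ℂ) + 1) * s)) /
      (Real.Gamma (1 + ((z.2 : ℝ) + 1) * Real.log (Ideal.absNorm z.1.asIdeal) / Real.log x) : ℂ)

end

/-- The correction `∑_a n(a) ∑_{k ≥ 1} e^{-εk(s - a)} / (k Γ(1 + εk / log x))`. -/
noncomputable def correction (ε : ℝ) (n : ℂ →₀ ℤ) (x : ℝ) (s : ℂ) : ℂ :=
  ∑ a ∈ n.support, (n a : ℂ) * ∑' k : ℕ, Complex.exp (-(ε * ((k : ℂ) + 1) * (s - a))) /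
    (((k : ℂ) + 1) * (Real.Gamma (1 + ε * ((k : ℝ) + 1) / Real.log x) : ℂ))

/-- For every `R > 0` there are `ε > 0` and an integral function `n` of finite support in `Re a ≤ 3/2`
such that the corrected sums converge for `x → ∞` on the disc `|s| ≤ R` with the error `O(1 / log x)`. -/
def ConvergesOnDiscs (P : ℝ → ℂ → ℂ) : Prop :=
  ∀ R > (0 : ℝ), ∃ (ε : ℝ) (n : ℂ →₀ ℤ), 0 < ε ∧ (∀ a, n a ≠ 0 → a.re ≤ 3 / 2) ∧
    ∃ (G : ℂ → ℂ) (C x₁ : ℝ), ∀ x ≥ x₁, ∀ s : ℂ, ‖s‖ ≤ R →
      ‖P x s + correction ε n x s - G s‖ ≤ C / Real.log x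

/-- For every `R > 0` there are `ε > 0` and an integral function `n` of finite support in `Re a ≤ 3/2`
such that the corrected sums are bounded on the disc `|s| ≤ R` along some sequence `x_k → ∞`. -/
def BoundedOnDiscs (P : ℝ → ℂ → ℂ) : Prop :=
  ∀ R > (0 : ℝ), ∃ (ε : ℝ) (n : ℂ →₀ ℤ), 0 < ε ∧ (∀ a, n a ≠ 0 → a.re ≤ 3 / 2) ∧
    ∃ (C : ℝ) (x : ℕ → ℝ), Tendsto x atTop atTop ∧ ∀ k, ∀ s : ℂ, ‖s‖ ≤ R →
      ‖P (x k) s + correction ε n (x k) s‖ ≤ C

/-- **Meromorphic continuation in terms of bounded sums over the places.**  Let `E` be an elliptic curve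
over a number field `K`.  The following are equivalent:

1. the `L`-series `L(E, s)` has a meromorphic continuation to `ℂ`;
2. for every `R > 0` there are `ε > 0` and an integral function `n` of finite support in `Re a ≤ 3/2` such
   that `∑_v ∑_k t_k(v) Nv^{-ks} / (k Γ(1 + k log Nv / log x))
   + ∑_a n(a) ∑_k e^{-εk(s - a)} / (k Γ(1 + εk / log x))` converges as `x → ∞` on the disc `|s| ≤ R`, with
   the error `O(1 / log x)`;
3. for every `R > 0` there are such `ε` and `n` for which these sums are bounded on the disc `|s| ≤ R`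
   along some sequence `x_k → ∞`. -/
theorem result {K : Type} [Field K] [NumberField K] (E : WeierstrassCurve K) [E.IsElliptic]
    (W : HeightOneSpectrum (𝓞 K) → WeierstrassCurve (𝓞 K)) (_ : MinimalModels E W) :
    List.TFAE [
      ∃ f : ℂ → ℂ, MeromorphicOn f Set.univ ∧ ∀ s : ℂ, 3 / 2 < s.re → f s = LSeries W s,
      ConvergesOnDiscs (pointSum W),
      BoundedOnDiscs (pointSum W)] := by
  have htr : ∀ v, trace W v = (Pool.Agent.TH339.MP.av W v : ℂ) := by
    intro v
    have h1 : (Nat.card {xy : (𝓞 K ⧸ v.asIdeal) × (𝓞 K ⧸ v.asIdeal) //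
            ((W v).map (Ideal.Quotient.mk v.asIdeal)).toAffine.Equation xy.1 xy.2}) =
        Pool.Agent.TH339.MP.affc ((W v).map (Ideal.Quotient.mk v.asIdeal)) := by
      unfold Pool.Agent.TH339.MP.affc
      refine Nat.card_congr (Equiv.subtypeEquivRight fun q => ?_)
      exact WeierstrassCurve.Affine.equation_iff ..
    unfold trace Pool.Agent.TH339.MP.av Pool.Agent.TH339.MP.nm
    rw [h1]
    push_cast
    rfl
  have hdet : ∀ v, det W v = Pool.Agent.J6H34.RC.ev W v := fun v => rfl
  have hL : ∀ s : ℂ, 3 / 2 < s.re →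
      LSeries W s = Complex.exp (Pool.Agent.J6H34.RC.lE W s) := by
    intro s hs
    rw [← (Pool.Agent.J6H34.RC.prod_E W hs).tprod_eq]
    unfold LSeries
    refine tprod_congr fun v => ?_
    rw [htr]
    rfl
  have hpt : ∀ v k, powerTrace W v k =
      Pool.Agent.J6H34.RC.tk2 (Pool.Agent.TH339.MP.av W v) (Pool.Agent.J6H34.RC.ev W v) k := by
    intro v k
    induction k using Nat.strong_induction_on with
    | _ k ih =>
      match k with
      | 0 => rfl
      | 1 => exact htr v
      | (k + 2) =>
        rw [powerTrace, Pool.Agent.J6H34.RC.tk2, ih (k + 1) (by omega), ih k (by omega), htr, hdet]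
  have hY : ∀ ε n x s, pointSum W x s + correction ε n x s =
      Pool.Agent.J6H34.RC.cwe (Pool.Agent.J6H34.RC.wE W) ε n (Real.log x) s := by
    intro ε n x s
    unfold Pool.Agent.J6H34.RC.cwe
    congr 1
    · unfold pointSum Pool.Agent.J6H34.RC.wE
      refine tsum_congr fun z => ?_
      rw [hpt]
      unfold Pool.Agent.J6H34.RC.cE Pool.Agent.J6H34.RC.le Pool.Agent.W189.ML.om
        Pool.Agent.TH339.MP.nm
      have h2 : (Ideal.absNorm z.1.asIdeal : ℂ) ≠ 0 := by
        have := Pool.Agent.TH339.MP.two_le_nm z.1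
        unfold Pool.Agent.TH339.MP.nm at this
        exact_mod_cast (by omega : Ideal.absNorm z.1.asIdeal ≠ 0)
      rw [Complex.cpow_def_of_ne_zero h2, ← Complex.natCast_log, Complex.ofReal_inv,
        ← div_eq_mul_inv]
      congr 3
      push_cast
      ring
    · unfold correction Pool.Agent.J6H34.RC.hme Pool.Agent.W189.ML.om
      refine Finset.sum_congr rfl fun a _ => ?_
      congr 1
      refine tsum_congr fun k => ?_
      rw [Complex.ofReal_inv, ← div_eq_mul_inv, div_div]
      congr 2
      · ring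
      · congr 3
        ring
  have h := Pool.Agent.J6H34.RC.plane_log (Pool.Agent.J6H34.RC.mt_E W)
    (Y := fun ε n x s => pointSum W x s + correction ε n x s) hY
  have h1 : (∃ f : ℂ → ℂ, MeromorphicOn f Set.univ ∧
        ∀ s : ℂ, 3 / 2 < s.re → f s = LSeries W s) ↔
      ∃ F : ℂ → ℂ, (∀ s, MeromorphicAt F s) ∧
        ∀ s : ℂ, 3 / 2 < s.re → F s = Complex.exp (Pool.Agent.J6H34.RC.lE W s) := by
    constructor
    · rintro ⟨f, hf, hs⟩
      exact ⟨f, fun s => hf s (Set.mem_univ _), fun s h => by rw [hs s h, hL s h]⟩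
    · rintro ⟨f, hf, hs⟩
      exact ⟨f, fun s _ => hf s, fun s h => by rw [hs s h, hL s h]⟩
  rw [h1]
  exact h

end Pool.Agent.Results.MP_0d9be2_nt.BoundedSums
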