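import Pool.Agent.J6H61.GT.Fin
import Pool.Agent.J6H74.Edge.M9

/-!
# Linear relations between generic vertical translates of L-functions of elliptic curves

For an elliptic curve `E` over a number field `K` the Euler product `L(E, s)` converges for
`Re s > 3/2`, and for most `K` nothing is known about `L(E, s)` outside this half-plane.  Let `M` be
the field of meromorphic functions on `ℂ`.  `L(E, s)` has a meromorphic continuation to `ℂ` if and
only if it is an element of `M` (restricted to the half-plane), that is, if and only if `1` and
`L(E, s)` are linearly dependent over `M`.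

Consider finitely many vertical translates `A_j(s + i c_j(t))`, where `A_j` is a product
`∏_i L(E_i, s + i x_i)^{a_i}` and the `c_j` are pairwise different linear forms on a real vector space
of finite dimension.  The theorem says: if, for all `t` in a set of positive measure, `1` and these
translates are linearly dependent over `M`, then one of the `A_j` continues meromorphically to `ℂ`.
Nothing is assumed about the coefficients beyond being meromorphic on `ℂ` for every single `t`.  For
example,

* (one real parameter) if for `t` in a set of positive measure there is a relation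
  `F(s) L(E, s + it) + G(s) L(E', s - it) = H(s)` with `F`, `G`, `H` meromorphic on `ℂ`,
  `(F, G) ≠ (0, 0)`, then `L(E, s)` or `L(E', s)` continues; in particular, if
  `L(E, s + it) L(E, s - it)` continues for `t` in a set of positive measure, then so does `L(E, s)`;
* (`n` parameters) if `L(E, s)` does not continue, then for almost all real `t_1, ..., t_n` (off a set
  of inner measure zero) the functions `1, L(E, s + i t_1), ..., L(E, s + i t_n)` are linearly
  independent over `M`.

More generally there can be several functions `A_{jk}` for every form `c_j`: if for `t` in a set of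
positive measure there is a nontrivial relation between `1` and the `A_{jk}(s + i c_j(t))`, then for
some `j` there is already a nontrivial relation between `1` and the functions `A_{jk}(s)` with this
`j`.

Proof.  Let `X` be the `M`-vector space of meromorphic functions on `Re s > 3/2`, modulo `M`.  The
translations act on `X` semilinearly.  (1) An element of `X` all of whose small translates lie in a
finite-dimensional subspace is zero: then a vector `V` of functions satisfies
`V(s + ih) = B_h(s) V(s)` with `B_h` over `M`; by Baire's theorem and Montel's theorem the `B_h` are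
locally bounded and continuous in `h`, averaging over `h` turns the relation into a differential
equation `V' = C V` with a matrix `C` meromorphic across the edge, and the singular points of the
equation can be moved away by the relation.  (2) If `R` is a finite-dimensional subspace of `X`, then
for every `b` there are finitely many small `u` such that every subspace of dimension at most `b` is
disjoint from one of the translates of `R` by `u`: this is a linear form of a lemma of B. H. Neumann
on coverings of groups by cosets, and follows from (1) and Bollobás' theorem on cross intersecting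
families of subspaces.  (3) By induction on the number of slopes, for finite-dimensional subspaces
`R_j` of `X` and distinct slopes there are finitely many small `u` such that the translates of the
`R_j` by `β_j + α_j u` are independent for one of them, whatever the `β_j` are; the number of the `u`
depends only on the dimensions.  A set of positive measure contains a translate of every sufficiently
small set of given cardinality.
-/

set_option autoImplicit false

namespace Pool.Agent.Results.MP_0d9be2_nt.GenericTranslates

open NumberField IsDedekindDomain MeasureTheory Filter Topology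

/-- `W v` is, for every finite place `v`, an integral model of `E` with discriminant minimal at
`v`. -/
def MinimalModels {K : Type} [Field K] [NumberField K] (E : WeierstrassCurve K)
    (W : HeightOneSpectrum (𝓞 K) → WeierstrassCurve (𝓞 K)) : Prop :=
  ∀ v : HeightOneSpectrum (𝓞 K),
    (∃ C : WeierstrassCurve.VariableChange K, C • (W v).map (algebraMap (𝓞 K) K) = E) ∧
    ∀ W' : WeierstrassCurve (𝓞 K),
      (∃ C : WeierstrassCurve.VariableChange K, C • W'.map (algebraMap (𝓞 K) K) = E) →
      ∀ n : ℕ, (W v).Δ ∈ v.asIdeal ^ n → W'.Δ ∈ v.asIdeal ^ n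

open Classical in
/-- The Euler factor at `v`, `(1 - a_v Nv^{-s} + Nv^{1-2s})⁻¹` if the reduction at `v` is good and
`(1 - a_v Nv^{-s})⁻¹` if it is bad, where `a_v` is `Nv` minus the number of affine points of the
reduction of `W v` (for bad reduction this is `1`, `-1`, `0` in the split multiplicative, non-split
multiplicative, additive case). -/
noncomputable def localFactor {K : Type} [Field K] [NumberField K]
    (W : HeightOneSpectrum (𝓞 K) → WeierstrassCurve (𝓞 K)) (v : HeightOneSpectrum (𝓞 K))
    (s : ℂ) : ℂ :=
  (1 - ((Ideal.absNorm v.asIdeal : ℂ)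
        - (Nat.card {xy : (𝓞 K ⧸ v.asIdeal) × (𝓞 K ⧸ v.asIdeal) //
            ((W v).map (Ideal.Quotient.mk v.asIdeal)).toAffine.Equation xy.1 xy.2} : ℂ))
        * (Ideal.absNorm v.asIdeal : ℂ) ^ (-s)
    + (if (W v).Δ ∈ v.asIdeal then 0 else (Ideal.absNorm v.asIdeal : ℂ))
        * (Ideal.absNorm v.asIdeal : ℂ) ^ (-2 * s))⁻¹

/-- The `L`-series, as the Euler product over all finite places. -/
noncomputable def LSeries {K : Type} [Field K] [NumberField K]
    (W : HeightOneSpectrum (𝓞 K) → WeierstrassCurve (𝓞 K)) (s : ℂ) : ℂ :=
  ∏' v : HeightOneSpectrum (𝓞 K), localFactor W v s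

/-- The product `∏_i L(E_i, s + i x_i)^{a_i}`. -/
noncomputable def prodL {ι : Type} [Fintype ι] {K : ι → Type} [∀ i, Field (K i)]
    [∀ i, NumberField (K i)]
    (W : ∀ i, HeightOneSpectrum (𝓞 (K i)) → WeierstrassCurve (𝓞 (K i)))
    (a : ι → ℤ) (x : ι → ℝ) (s : ℂ) : ℂ :=
  ∏ i, LSeries (W i) (s + x i * Complex.I) ^ a i

/-- `f` and `g` are equal as meromorphic functions on the open set `U`: near every point of `U` they
are equal except possibly at the point itself. -/
def Equal (U : Set ℂ) (f g : ℂ → ℂ) : Prop :=
  ∀ z ∈ U, ∀ᶠ w in 𝓝[≠] z, f w = g w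

/-- **Linear relations between generic vertical translates.**  Let `E_i` be finitely many elliptic
curves over number fields `K_i`, let `J` be a finite set, and for every `j ∈ J` let
`c_j(t) = ∑_q c_{jq} t_q` be a linear form on `ℝ^P`, pairwise different, and
`A_{jk}(s) = ∏_i L(E_i, s + i x_{jki})^{a_{jki}}`, `k ∈ κ_j`, finitely many products.  Suppose that
for all `t` in a measurable subset `T` of `ℝ^P` of positive measure there are functions `F_{jk}` and
`F₀`, meromorphic on `ℂ` and depending on `t` in an arbitrary way, the `F_{jk}` not all identically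
zero, with `∑_{j,k} F_{jk}(s) A_{jk}(s + i c_j(t)) = F₀(s)` for `Re s > 3/2`.

Then for some `j` there are meromorphic functions `G_k` (`k ∈ κ_j`) and `G₀` on `ℂ`, the `G_k` not all
identically zero, with `∑_k G_k(s) A_{jk}(s) = G₀(s)` for `Re s > 3/2`; and if `κ_j` has only one
element `k`, then `A_{jk}` has a meromorphic continuation to `ℂ`. -/
theorem result {ι : Type} [Fintype ι] (K : ι → Type) [∀ i, Field (K i)] [∀ i, NumberField (K i)]
    (E : ∀ i, WeierstrassCurve (K i)) [∀ i, (E i).IsElliptic]
    (W : ∀ i, HeightOneSpectrum (𝓞 (K i)) → WeierstrassCurve (𝓞 (K i)))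
    (_ : ∀ i, MinimalModels (E i) (W i))
    {J P : Type} [Fintype J] [Fintype P] (c : J → P → ℝ) (hc : Function.Injective c)
    {κ : J → Type} [∀ j, Fintype (κ j)] (a : ∀ j, κ j → ι → ℤ) (x : ∀ j, κ j → ι → ℝ)
    (T : Set (P → ℝ)) (hT : MeasurableSet T) (hpos : 0 < volume T)
    (hrel : ∀ t ∈ T, ∃ (F : ∀ j, κ j → ℂ → ℂ) (F₀ : ℂ → ℂ),
      (∀ j k s, MeromorphicAt (F j k) s) ∧ (∀ s, MeromorphicAt F₀ s) ∧
      (∃ j k, ¬ Equal Set.univ (F j k) 0) ∧
      Equal {s : ℂ | 3 / 2 < s.re} (fun s => ∑ j, ∑ k, F j k s *
        prodL W (a j k) (x j k) (s + ((∑ q, c j q * t q : ℝ) : ℂ) * Complex.I)) F₀) :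
    ∃ j, (∃ (G : κ j → ℂ → ℂ) (G₀ : ℂ → ℂ),
        (∀ k s, MeromorphicAt (G k) s) ∧ (∀ s, MeromorphicAt G₀ s) ∧
        (∃ k, ¬ Equal Set.univ (G k) 0) ∧
        Equal {s : ℂ | 3 / 2 < s.re} (fun s => ∑ k, G k s * prodL W (a j k) (x j k) s) G₀) ∧
      ∀ k, (∀ k', k' = k) → ∃ Λ : ℂ → ℂ, (∀ s, MeromorphicAt Λ s) ∧
        ∀ s : ℂ, 3 / 2 < s.re → Λ s = prodL W (a j k) (x j k) s := by
  have hlf : ∀ i v s, localFactor (W i) v s = Pool.Agent.TH339.MP.elf (W i) v s := by
    intro i v s
    have h1 : (Nat.card {xy : (𝓞 (K i) ⧸ v.asIdeal) × (𝓞 (K i) ⧸ v.asIdeal) //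
            ((W i v).map (Ideal.Quotient.mk v.asIdeal)).toAffine.Equation xy.1 xy.2}) =
        Pool.Agent.TH339.MP.affc ((W i v).map (Ideal.Quotient.mk v.asIdeal)) := by
      unfold Pool.Agent.TH339.MP.affc
      refine Nat.card_congr (Equiv.subtypeEquivRight fun q => ?_)
      exact WeierstrassCurve.Affine.equation_iff ..
    unfold localFactor Pool.Agent.TH339.MP.elf Pool.Agent.TH339.MP.lfac Pool.Agent.TH339.MP.av
      Pool.Agent.TH339.MP.nm
    rw [h1]
    push_cast
    rfl
  have hL : ∀ i, LSeries (W i) = fun s => ∏' v, Pool.Agent.TH339.MP.elf (W i) v s :=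
    fun i => funext fun s => tprod_congr fun v => hlf i v s
  choose b hb using fun i => Pool.Agent.J6H74.Edge.ec_isEP (W i)
  have hb' : ∀ i, Pool.Agent.J6H74.Edge.IsEP (LSeries (W i)) (b i)
      (Pool.Agent.TH345.ET.hE (W i)) := by
    intro i
    rw [hL i]
    exact hb i
  have han : ∀ j k (s : ℂ), 3 / 2 < s.re → AnalyticAt ℂ (prodL W (a j k) (x j k)) s :=
    fun j k s hs => (Pool.Agent.J6H74.Edge.ep_analytic
      (Pool.Agent.J6H74.Edge.ep_family hb' (a j k) (x j k)) hs).1
  obtain ⟨j, G, G₀, hG, hG₀, hne, hGe⟩ := Pool.Agent.J6H61.GT.generic_translates (a := 3 / 2) c hc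
    (A := fun j k => prodL W (a j k) (x j k)) (fun j k s hs => (han j k s hs).meromorphicAt)
    hT hpos hrel
  refine ⟨j, ⟨G, G₀, hG, hG₀, hne, hGe⟩, fun k hk => ?_⟩
  obtain ⟨k', hk'⟩ := hne
  have hkk : k' = k := hk k'
  subst hkk
  refine Pool.Agent.J6H61.GT.cont_of_rel (a := 3 / 2) (han j k') (hG k') hG₀ hk' ?_
  intro z hz
  filter_upwards [hGe z hz] with w hw
  rw [← hw]
  have h1 : (Finset.univ : Finset (κ j)) = {k'} := by
    ext y
    simp [hk y]
  rw [h1, Finset.sum_singleton]

end Pool.Agent.Results.MP_0d9be2_nt.GenericTranslates
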