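import Pool.Agent.J6H43.LF.Cls

/-!
# Meromorphic continuation: reduction to large fields and hyperelementary Galois groups

Q1 asks whether `L(E, s)` continues for ALL elliptic curves `E` over ALL number fields `K`.  The
theorem shows that it is enough to consider curves `E` and fields `K` which are very special at the
same time:

* `E` lies in a given class of curves which is closed under base change and which contains for every
  `j ∈ K`, `j ≠ 0, 1728`, only one (or at least one) curve over `K`, for instance the class of the
  curves `y² = x³ + tx + t` and `y² = x³ + Ax + B`, `AB = 0`;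
* the image of `Gal(K̄/K)` on `E[m]` is hyperelementary (it has a cyclic normal subgroup of order prime
  to `p` and of index a power of `p`, for some prime `p`);
* the Galois group over `K` of the splitting field of a prescribed polynomial `f` with rational
  coefficients is hyperelementary;
* at most `[K : ℚ] / b` places of `K` are real;
* all the local degrees `[K_v : ℚ_p]`, `v ∣ p`, `p ≤ b`, are at least `b`.

Here `m`, `f ≠ 0` and `b` are arbitrary; they may even depend on the minimal polynomial of `j(E)` over
`ℚ`.  For instance `m = b = N!`: then for every odd prime `ℓ ≤ N` either `E` has a `K`-rational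
isogeny of degree `ℓ` or the action of `Gal(K̄/K)` on `E[ℓ]` becomes abelian over a quadratic
extension, and `K` is large at all primes `p ≤ N!` and almost totally complex.

There is a version up to powers.  Let `S` be a set of primes.  The following are equivalent:
for every `E` some power `L(E, s)^n`, `n` prime to all `p ∈ S`, has a meromorphic continuation;
this holds for all curves and fields as above, where hyperelementary is replaced by: cyclic or
`p`-hyperelementary with `p ∈ S`.  For `S = ∅` (`n` arbitrary) only cyclic groups are left; if `S` is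
the set of all primes, then `n = 1` and the first statement is Q1.

Proof.  If `j(E) ≠ 0, 1728`, then `E` is the twist of a curve `E'` of the class by a `d ∈ K`, and
`L(E/K, s) L(E'/K, s) = L(E'/K(√d), s)` up to finitely many Euler factors; so we may suppose that `E`
is in the class.  Let `L ⊇ K(E[m])` be finite and Galois over `K`.  By the induction theorems of
Artin and Solomon the trivial character of `Gal(L/K)`, times an integer `N` prime to all `p ∈ S`, is
an integral combination of characters induced from the trivial characters of cyclic groups and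
`p`-hyperelementary groups `Gal(L/F)`, `p ∈ S`.  By the inductivity of `log L(E/F, s)`, which is
proved from the point counts, `L(E/K, s)^N` is, up to finitely many Euler factors, a product of
integral powers of the `L(E/F, s)`.  As `E` and `E/F` have the same `j`-invariant, `m`, `f` and `b`
are the same for all `F`.

The field `L` is chosen as the composite of `K(E[m])`, the splitting field of `f` and the splitting
fields of auxiliary polynomials.  The first one is `(X^Q - 2)(X^Q - 3)`, `Q ≥ b` prime: if `F` has a
real place and `Gal(L/F)` is hyperelementary, then `2^i 3^j`, `(i, j) ≠ (0, 0)` modulo `Q`, is a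
`Q`-th power in `F`, and the real places of `F` lie over real places of a subfield of degree `Q` with
only one real place.  The others are `X^q - p`, `p ≤ b`, where `q` is a prime such that the order of
`p` modulo `q` is `6^k`: at a place `v ∣ p` of `F` either `p` is a `q`-th power in `F_v` or `F_v`
contains the unramified extension of degree `2^k` or that of degree `3^k`.
-/

set_option autoImplicit false

namespace Pool.Agent.Results.MP_0d9be2_nt.ReductionToLargeFields

open NumberField IsDedekindDomain

/-! ### the `L`-series -/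

/-- `W v` is, for every finite place `v`, an integral model of `E` with discriminant minimal at
`v`. -/
def MinimalModels {K : Type} [Field K] [NumberField K] (E : WeierstrassCurve K)
    (W : HeightOneSpectrum (𝓞 K) → WeierstrassCurve (𝓞 K)) : Prop :=
  ∀ v : HeightOneSpectrum (𝓞 K),
    (∃ C : WeierstrassCurve.VariableChange K, C • (W v).map (algebraMap (𝓞 K) K) = E) ∧
    ∀ W' : WeierstrassCurve (𝓞 K),
      (∃ C : WeierstrassCurve.VariableChange K, C • W'.map (algebraMap (𝓞 K) K) = E) →
      ∀ n : ℕ, (W v).Δ ∈ v.asIdeal ^ n → W'.Δ ∈ v.asIdeal ^ n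

open Classical in
/-- The Euler factor at `v`, `(1 - a_v Nv^{-s} + Nv^{1-2s})⁻¹` if the reduction at `v` is good and
`(1 - a_v Nv^{-s})⁻¹` if it is bad, where `a_v` is `Nv` minus the number of affine points of the
reduction of `W v` (for bad reduction this is `1`, `-1`, `0` in the split multiplicative, non-split
multiplicative, additive case). -/
noncomputable def localFactor {K : Type} [Field K] [NumberField K]
    (W : HeightOneSpectrum (𝓞 K) → WeierstrassCurve (𝓞 K)) (v : HeightOneSpectrum (𝓞 K))
    (s : ℂ) : ℂ :=
  (1 - ((Ideal.absNorm v.asIdeal : ℂ)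
        - (Nat.card {xy : (𝓞 K ⧸ v.asIdeal) × (𝓞 K ⧸ v.asIdeal) //
            ((W v).map (Ideal.Quotient.mk v.asIdeal)).toAffine.Equation xy.1 xy.2} : ℂ))
        * (Ideal.absNorm v.asIdeal : ℂ) ^ (-s)
    + (if (W v).Δ ∈ v.asIdeal then 0 else (Ideal.absNorm v.asIdeal : ℂ))
        * (Ideal.absNorm v.asIdeal : ℂ) ^ (-2 * s))⁻¹

/-- The `L`-series, as the Euler product over all finite places. -/
noncomputable def LSeries {K : Type} [Field K] [NumberField K]
    (W : HeightOneSpectrum (𝓞 K) → WeierstrassCurve (𝓞 K)) (s : ℂ) : ℂ :=
  ∏' v : HeightOneSpectrum (𝓞 K), localFactor W v s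

/-- Some power `L(E, s)^n`, where `n > 0` is not divisible by any element of `S`, has a meromorphic
continuation to `ℂ`.  If `S` is the set of all primes, then `n = 1` and this is the continuation of
`L(E, s)`. -/
def Continues {K : Type} [Field K] [NumberField K] (S : Set ℕ) (E : WeierstrassCurve K) : Prop :=
  ∃ n : ℕ, 0 < n ∧ (∀ p ∈ S, ¬ p ∣ n) ∧
    ∀ W : HeightOneSpectrum (𝓞 K) → WeierstrassCurve (𝓞 K), MinimalModels E W →
      ∃ Λ : ℂ → ℂ, MeromorphicOn Λ Set.univ ∧ ∀ s : ℂ, 3 / 2 < s.re → Λ s = LSeries W s ^ n

/-! ### the action of the Galois group on the torsion -/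

section curve

variable {K : Type} [Field K]

/-- The curve `y² = x³ + Ax + B`. -/
def curve (A B : K) : WeierstrassCurve K := ⟨0, 0, 0, A, B⟩

/-- The points of `y² = x³ + Ax + B` over the algebraic closure of `K`. -/
def Points (A B : K) : Type := ((curve A B).baseChange (AlgebraicClosure K)).toAffine.Point

open scoped Classical in
/-- The group structure of Mathlib on the points. -/
noncomputable instance (A B : K) : AddCommGroup (Points A B) :=
  (inferInstance : AddCommGroup ((curve A B).baseChange (AlgebraicClosure K)).toAffine.Point)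

open scoped Classical in
/-- The action of `σ` on the points. -/
noncomputable def act (A B : K) (σ : AlgebraicClosure K ≃ₐ[K] AlgebraicClosure K) :
    Points A B →+ Points A B :=
  WeierstrassCurve.Affine.Point.map (W' := curve A B) (R := K) (S := K)
    (σ : AlgebraicClosure K →ₐ[K] AlgebraicClosure K)

/-- The `m`-torsion `E[m]`. -/
abbrev Torsion (A B : K) (m : ℕ) : Type := {P : Points A B // m • P = 0}

/-- The group of the permutations of `E[m]` given by the elements of the Galois group, a group
isomorphic to `Gal(K(E[m])/K)`. -/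
noncomputable def galoisImage (A B : K) (m : ℕ) : Subgroup (Equiv.Perm (Torsion A B m)) :=
  Subgroup.closure {π | ∃ σ : AlgebraicClosure K ≃ₐ[K] AlgebraicClosure K,
    ∀ P : Torsion A B m, (π P : Points A B) = act A B σ P}

/-- `E[ℓ]` has a line which is stable under the Galois group, or the action on `E[ℓ]` of the elements
of the Galois group which fix the square roots of a suitable `d ∈ K` is commutative. -/
def ReducibleOrDihedral (A B : K) (ℓ : ℕ) : Prop :=
  (∃ P : Points A B, P ≠ 0 ∧ ℓ • P = 0 ∧ ∀ σ, ∃ k : ℕ, act A B σ P = k • P) ∨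
  ∃ d : K, ∀ σ τ : AlgebraicClosure K ≃ₐ[K] AlgebraicClosure K,
    (∀ x, x ^ 2 = algebraMap K (AlgebraicClosure K) d → σ x = x ∧ τ x = x) →
    ∀ P : Points A B, ℓ • P = 0 → act A B σ (act A B τ P) = act A B τ (act A B σ P)

end curve

/-- `U` is cyclic or has, for a `p ∈ S`, a cyclic normal subgroup of order prime to `p` and of index a
power of `p` (that is, `U` is `p`-hyperelementary). -/
def IsHyperelementary (S : Set ℕ) (U : Type) [Group U] : Prop :=
  IsCyclic U ∨ ∃ p ∈ S, ∃ C : Subgroup U, C.Normal ∧ IsCyclic C ∧ ¬ p ∣ Nat.card C ∧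
    ∃ k : ℕ, C.index = p ^ k

/-- The image of the Galois group in the permutations of `E[m]` is cyclic or `p`-hyperelementary for a
`p ∈ S`. -/
def HyperelementaryImage {K : Type} [Field K] (S : Set ℕ) (A B : K) (m : ℕ) : Prop :=
  IsHyperelementary S (galoisImage A B m)

/-- At most `[K : ℚ] / b` places of `K` are real, and `[K_v : ℚ_p] ≥ b` for all places `v ∣ p`,
`p ≤ b`: if `Nv = p ^ f` and `p ∈ v ^ e`, then `f` is the residue degree of `v`, `e` is at most the
ramification index of `v`, and `e * f ≤ [K_v : ℚ_p]`. -/
def LargeField (b : ℕ) (K : Type) [Field K] [NumberField K] : Prop :=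
  InfinitePlace.nrRealPlaces K * b ≤ Module.finrank ℚ K ∧
  ∀ p : ℕ, p.Prime → p ≤ b → ∀ v : HeightOneSpectrum (𝓞 K), (p : 𝓞 K) ∈ v.asIdeal →
    ∃ e f : ℕ, b ≤ e * f ∧ (p : 𝓞 K) ∈ v.asIdeal ^ e ∧ Ideal.absNorm v.asIdeal = p ^ f

/-- The Galois group over `K` of the splitting field of `f ∈ ℚ[X]` is cyclic or `p`-hyperelementary
for a `p ∈ S`. -/
def HyperelementaryGroup (S : Set ℕ) (f : Polynomial ℚ) (K : Type) [Field K] [NumberField K] :
    Prop :=
  IsHyperelementary S (f.map (algebraMap ℚ K)).Gal

/-- `𝓔 K A B`, for number fields `K` and `A, B ∈ K`, describes a class of curves `y² = x³ + Ax + B`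
which is closed under base change, which contains a curve over `K` with the invariant `j` for every
number field `K` and every `j ∈ K`, `j ≠ 0, 1728` (these are the `j`-invariants of the elliptic curves
with `AB ≠ 0`), and which contains all curves with `AB = 0`. -/
structure OnePerInvariant (𝓔 : ∀ (K : Type) [Field K] [NumberField K], K → K → Prop) : Prop where
  baseChange : ∀ (K F : Type) [Field K] [NumberField K] [Field F] [NumberField F] [Algebra K F]
    (A B : K), 𝓔 K A B → 𝓔 F (algebraMap K F A) (algebraMap K F B)
  exists_curve : ∀ (K : Type) [Field K] [NumberField K] (A B : K) [(curve A B).IsElliptic],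
    A * B ≠ 0 → ∃ (A' B' : K) (_ : (curve A' B').IsElliptic),
      𝓔 K A' B' ∧ (curve A' B').j = (curve A B).j
  special : ∀ (K : Type) [Field K] [NumberField K] (A B : K), A * B = 0 → 𝓔 K A B

/-- **Reduction to large fields and hyperelementary Galois groups.**  Let `S` be a set of primes, let
`m > 0`, `b` (integers) and `f ≠ 0` (a polynomial with rational coefficients) be arbitrary functions
of a polynomial `P ∈ ℚ[X]`, and let `𝓔` be a class of elliptic curves as above.

1. For every elliptic curve `E` over a number field a power `L(E, s)^n`, `n > 0` prime to all `p ∈ S`,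
   has a meromorphic continuation to `ℂ`, if and only if this holds for those curves
   `E : y² = x³ + Ax + B` in `𝓔` over number fields `K` such that, with `P` the minimal polynomial of
   `j(E)` over `ℚ`, the image of `Gal(K̄/K)` in the group of permutations of `E[m(P)]` and the Galois
   group of `f(P)` over `K` are cyclic or `p`-hyperelementary for a `p ∈ S`, at most
   `[K : ℚ] / b(P)` places of `K` are real, and `[K_v : ℚ_p] ≥ b(P)` for all `v ∣ p`, `p ≤ b(P)`.
2. If the image of the Galois group on `E[n]` has this property, then for every odd prime `ℓ ∣ n`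
   either `E[ℓ]` has a line which is stable under the Galois group, or there is a `d ∈ K` such that
   the elements of the Galois group which fix the square roots of `d` commute on `E[ℓ]`.
3. The curves `y² = x³ + tx + t` and those with `AB = 0` form a class `𝓔` as above. -/
theorem result (S : Set ℕ) (_ : ∀ p ∈ S, p.Prime) (m b : Polynomial ℚ → ℕ)
    (f : Polynomial ℚ → Polynomial ℚ) (_ : ∀ P, 0 < m P) (_ : ∀ P, f P ≠ 0)
    (𝓔 : ∀ (K : Type) [Field K] [NumberField K], K → K → Prop) (_ : OnePerInvariant 𝓔) :
    ((∀ (K : Type) [Field K] [NumberField K] (E : WeierstrassCurve K) [E.IsElliptic],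
        Continues S E) ↔
      ∀ (K : Type) [Field K] [NumberField K] (A B : K) [(curve A B).IsElliptic], 𝓔 K A B →
        HyperelementaryImage S A B (m (minpoly ℚ (curve A B).j)) →
        HyperelementaryGroup S (f (minpoly ℚ (curve A B).j)) K →
        LargeField (b (minpoly ℚ (curve A B).j)) K → Continues S (curve A B)) ∧
    (∀ (K : Type) [Field K] [NumberField K] (A B : K) [(curve A B).IsElliptic] (n : ℕ), 0 < n →
      HyperelementaryImage S A B n → ∀ ℓ : ℕ, ℓ.Prime → ℓ ≠ 2 → ℓ ∣ n →
        ReducibleOrDihedral A B ℓ) ∧
    OnePerInvariant (fun _ _ _ A B => A = B ∨ A * B = 0) := by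
  rename_i hS hm hf h𝓔
  have hlf : ∀ {K : Type} [Field K] [NumberField K]
      (W : HeightOneSpectrum (𝓞 K) → WeierstrassCurve (𝓞 K)) (v : HeightOneSpectrum (𝓞 K))
      (s : ℂ), localFactor W v s = Pool.Agent.J6H67.HE.lf W v s := by
    intro K _ _ W v s
    have h1 : (Nat.card {xy : (𝓞 K ⧸ v.asIdeal) × (𝓞 K ⧸ v.asIdeal) //
            ((W v).map (Ideal.Quotient.mk v.asIdeal)).toAffine.Equation xy.1 xy.2}) =
        Pool.Agent.H341R2.EC.aff (Pool.Agent.H341R2.EC.red v (W v)) := by
      unfold Pool.Agent.H341R2.EC.aff Pool.Agent.H341R2.EC.red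
      refine Nat.card_congr (Equiv.subtypeEquivRight fun q => ?_)
      exact WeierstrassCurve.Affine.equation_iff ..
    unfold localFactor Pool.Agent.J6H67.HE.lf Pool.Agent.H341R2.EC.trc
      Pool.Agent.H921R2.TatePole.nm
    rw [h1]
    push_cast
    rfl
  have hCt : ∀ {K : Type} [Field K] [NumberField K] (E : WeierstrassCurve K),
      Continues S E ↔ ∃ n ∈ Pool.Agent.J6H67.HE.Ms S hS, Pool.Agent.J6H67.HE.Ct E n := by
    intro K _ _ E
    have hL : ∀ W : HeightOneSpectrum (𝓞 K) → WeierstrassCurve (𝓞 K), ∀ s : ℂ,
        LSeries W s = ∏' v, Pool.Agent.J6H67.HE.lf W v s :=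
      fun W s => tprod_congr fun v => hlf W v s
    constructor
    · rintro ⟨n, h1, h2, h3⟩
      refine ⟨n, ⟨h1, h2⟩, fun W hW => ?_⟩
      obtain ⟨Λ, h4, h5⟩ := h3 W hW
      exact ⟨Λ, h4, fun s hs => by rw [h5 s hs, hL]⟩
    · rintro ⟨n, ⟨h1, h2⟩, h3⟩
      refine ⟨n, h1, h2, fun W hW => ?_⟩
      obtain ⟨Λ, h4, h5⟩ := h3 W hW
      exact ⟨Λ, h4, fun s hs => by rw [h5 s hs, hL]⟩
  have hHyp : ∀ {K : Type} [Field K] (A B : K) (n : ℕ),
      HyperelementaryImage S A B n ↔
        Pool.Agent.J6H67.HE.HypIn S (Pool.Agent.J6H67.HE.rep A B n).range := by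
    intro K _ A B n
    unfold HyperelementaryImage
    let ρ : (AlgebraicClosure K ≃ₐ[K] AlgebraicClosure K) →*
        Equiv.Perm (Torsion A B n) := Pool.Agent.J6H67.HE.rep A B n
    have himg : galoisImage A B n = ρ.range := by
      apply le_antisymm
      · unfold galoisImage
        rw [Subgroup.closure_le]
        rintro π ⟨σ, hσ⟩
        refine ⟨σ, Equiv.ext fun P => Subtype.ext (hσ P).symm⟩
      · rintro _ ⟨σ, rfl⟩
        exact Subgroup.subset_closure ⟨σ, fun P => rfl⟩
    rw [himg]
    exact Iff.rfl
  refine ⟨⟨fun h K _ _ A B _ _ _ _ _ => h K (curve A B), fun h K _ _ E _ => ?_⟩, ?_, ?_⟩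
  · rw [hCt]
    refine Pool.Agent.J6H43.LF.red_cls hS m b f hm hf 𝓔 h𝓔.baseChange ?_ h𝓔.special ?_ E
    · intro F _ _ A B hell hAB
      have hell' : (curve A B).IsElliptic := hell
      exact h𝓔.exists_curve F A B hAB
    · intro F _ _ A B hell hE h1 h2 h3
      have hell' : (curve A B).IsElliptic := hell
      refine (hCt _).1 (h F A B hE ?_ h2 h3)
      rw [hHyp]
      exact h1
  · intro K _ _ A B hell n hn hH ℓ hℓ hℓ2 hdvd
    rw [hHyp] at hH
    exact Pool.Agent.J6H67.HE.small_main (Pool.Agent.J6H67.HE.disc_of_ell hell) hn hS hH hℓ hℓ2 hdvd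

  · refine ⟨?_, ?_, ?_⟩
    · rintro K F _ _ _ _ _ A B (h | h)
      · exact Or.inl (by rw [h])
      · exact Or.inr (by rw [← map_mul, h, map_zero])
    · intro K _ _ A B hell hAB
      have hell' : (Pool.Agent.H901R3.MS.CV A B).IsElliptic := hell
      obtain ⟨t, ht, hj⟩ := Pool.Agent.J6H43.LF.exists_diag hAB
      exact ⟨t, t, ht, Or.inl rfl, hj⟩
    · intro K _ _ A B h
      exact Or.inr h

end Pool.Agent.Results.MP_0d9be2_nt.ReductionToLargeFields
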