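import Pool.Agent.J6H74.TwoP.Q3
import Pool.Agent.J6H74.Lin.V8

/-!
# Linear relations between two Euler products on the edge of absolute convergence

The Euler product `L(E, s)` of an elliptic curve `E` over a number field `K` converges for
`Re s > 3/2`; for most `K` no continuation across any point of the edge `Re s = 3/2` is known.  On the
edge `L(E, s)` has boundary values `l(τ)`, `s = 3/2 + iτ`, for almost all `τ`, and
`l(-τ) = conj l(τ)`.  More generally let

`A(s) = ∏_i L(E_i, s + i t_i)^{a_i}`, with the boundary function `P(τ) = ∏_i l_i(τ + t_i)^{a_i}`, and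
`B(s) = ∏_i L(E_i, s + i u_i)^{b_i}`, with the reflected boundary function
`Q(τ) = ∏_i l_i(-τ + u_i)^{b_i}`,

two products which have nothing to do with each other.  The theorem says that ANY linear relation

`Φ₁(τ) P(τ) + Φ₂(τ) Q(τ) = Φ₃(τ)` for almost all `τ`, `Φ_j` meromorphic, `Φ₁ ≠ 0`, `Φ₂ ≠ 0`,

comes from meromorphic continuations of BOTH products (and conversely): near a point of the edge if
the relation holds near this point, and to all points `3/2 + iz` and `3/2 - iz` with `z` in a set `V`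
if the `Φ_j` are meromorphic on `V` and the relation holds near the real points of `V`.  Examples:

* one curve, `A = B = L(E, s)`: `L(E, s)` continues meromorphically to `ℂ` if and only if there is a
  functional equation `L(E, 3/2 + iτ) = Θ(τ) L(E, 3/2 - iτ) + Ψ(τ)` for almost all `τ`, with
  meromorphic `Θ ≠ 0` and `Ψ`;
* `B = A⁻¹` reflected: `A` continues if `|P|²` is almost everywhere equal to a meromorphic function;
  `B = A` reflected: if the phase `P / conj P` or the real part of `P` is;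
* two curves over two number fields: if `L(E, 3/2 + iτ)` and `L(E', 3/2 + i(c - τ))` satisfy a linear
  relation with meromorphic coefficients almost everywhere, then both functions continue;
* `V` is the plane without a closed part `R` of the real line: a relation between the boundary values
  on the rest of the edge, with coefficients which are meromorphic on the plane, is enough for a
  continuation of both products to the plane without `3/2 ± iR`.

Proof.  Locally `P = exp g` and `conj Q = exp k` with boundary functions `g`, `k` of Dirichlet series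
`G`, `K` over the prime powers, and `P + conj (exp k) = φ` after a normalisation.  Chebyshev's estimate
gives `|G'| ≤ B / y` at the distance `y` from the edge, and mean square distance `O(y)` of `G` to `g`.
Let `J` be an interval on which this distance is at most `c y` for arbitrarily small `y`, `c` a small
constant which depends on `B` only.  As `|P|² + |exp k|²` is up to an error equal to
`P φ̄ + φ exp k - 2 P exp k`, and the integral of `P exp k` over a horizontal segment is bounded, the
mean squares of `P` and `exp k` on these segments are bounded, although these functions are not known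
to be integrable.  So `P + conj (exp k) - φ` tends to `0` in the mean and `P` extends analytically
across `J`, by `φ(z) - conj (exp K (conj z))`.  As the mean square distance over a fixed interval is
`O(y)`, there are only finitely many disjoint intervals without this property.  So the singularities on
the edge are isolated, and they are poles or zeros because of the growth `y^{-B}` on both sides.
-/

set_option autoImplicit false

namespace Pool.Agent.Results.MP_0d9be2_nt.TwoProductRelations

open NumberField IsDedekindDomain MeasureTheory Filter Topology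
open scoped ComplexConjugate

/-- `W v` is, for every finite place `v`, an integral model of `E` with discriminant minimal at
`v`. -/
def MinimalModels {K : Type} [Field K] [NumberField K] (E : WeierstrassCurve K)
    (W : HeightOneSpectrum (𝓞 K) → WeierstrassCurve (𝓞 K)) : Prop :=
  ∀ v : HeightOneSpectrum (𝓞 K),
    (∃ C : WeierstrassCurve.VariableChange K, C • (W v).map (algebraMap (𝓞 K) K) = E) ∧
    ∀ W' : WeierstrassCurve (𝓞 K),
      (∃ C : WeierstrassCurve.VariableChange K, C • W'.map (algebraMap (𝓞 K) K) = E) →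
      ∀ n : ℕ, (W v).Δ ∈ v.asIdeal ^ n → W'.Δ ∈ v.asIdeal ^ n

open Classical in
/-- The Euler factor at `v`, `(1 - a_v Nv^{-s} + Nv^{1-2s})⁻¹` if the reduction at `v` is good and
`(1 - a_v Nv^{-s})⁻¹` if it is bad, where `a_v` is `Nv` minus the number of affine points of the
reduction of `W v` (for bad reduction this is `1`, `-1`, `0` in the split multiplicative, non-split
multiplicative, additive case). -/
noncomputable def localFactor {K : Type} [Field K] [NumberField K]
    (W : HeightOneSpectrum (𝓞 K) → WeierstrassCurve (𝓞 K)) (v : HeightOneSpectrum (𝓞 K))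
    (s : ℂ) : ℂ :=
  (1 - ((Ideal.absNorm v.asIdeal : ℂ)
        - (Nat.card {xy : (𝓞 K ⧸ v.asIdeal) × (𝓞 K ⧸ v.asIdeal) //
            ((W v).map (Ideal.Quotient.mk v.asIdeal)).toAffine.Equation xy.1 xy.2} : ℂ))
        * (Ideal.absNorm v.asIdeal : ℂ) ^ (-s)
    + (if (W v).Δ ∈ v.asIdeal then 0 else (Ideal.absNorm v.asIdeal : ℂ))
        * (Ideal.absNorm v.asIdeal : ℂ) ^ (-2 * s))⁻¹

/-- The `L`-series, as the Euler product over all finite places. -/
noncomputable def LSeries {K : Type} [Field K] [NumberField K]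
    (W : HeightOneSpectrum (𝓞 K) → WeierstrassCurve (𝓞 K)) (s : ℂ) : ℂ :=
  ∏' v : HeightOneSpectrum (𝓞 K), localFactor W v s

/-- The point `3/2 + iz`; for real `z` it is a point of the edge of absolute convergence. -/
noncomputable def edge (z : ℂ) : ℂ := 3 / 2 + z * Complex.I

/-- The angle `|s - (3/2 + iτ)| ≤ C (Re s - 3/2)` in the half-plane `Re s > 3/2`. -/
def angle (τ C : ℝ) : Set ℂ :=
  {s : ℂ | 3 / 2 < s.re ∧ ‖s - edge τ‖ ≤ C * (s.re - 3 / 2)}

/-- `Λ` is a continuation of `F`, a function for `Re s > 3/2`, which is meromorphic at all points with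
`Re s > 3/2` and at all points of `D`. -/
def IsContinuation (F : ℂ → ℂ) (D : Set ℂ) (Λ : ℂ → ℂ) : Prop :=
  (∀ s : ℂ, 3 / 2 < s.re ∨ s ∈ D → MeromorphicAt Λ s) ∧ ∀ s : ℂ, 3 / 2 < s.re → Λ s = F s

section

variable {ι : Type} [Fintype ι] {K : ι → Type} [∀ i, Field (K i)] [∀ i, NumberField (K i)]

/-- The product `∏_i L(E_i, s + i t_i)^{a_i}`. -/
noncomputable def prodL (W : ∀ i, HeightOneSpectrum (𝓞 (K i)) → WeierstrassCurve (𝓞 (K i)))
    (a : ι → ℤ) (t : ι → ℝ) (s : ℂ) : ℂ :=
  ∏ i, LSeries (W i) (s + t i * Complex.I) ^ a i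

/-- The boundary function `∏_i l_i(τ + t_i)^{a_i}` of the product. -/
noncomputable def boundary (l : ι → ℝ → ℂ) (a : ι → ℤ) (t : ι → ℝ) (τ : ℝ) : ℂ :=
  ∏ i, l i (τ + t i) ^ a i

end

/-- `P` and `Q` satisfy on `V` the linear relation with the coefficients `Φ₁`, `Φ₂`, `Φ₃`: these are
meromorphic at all points of `V`, neither `Φ₁` nor `Φ₂` vanishes identically near a point of `V`, and
`Φ₁(τ) P(τ) + Φ₂(τ) Q(τ) = Φ₃(τ)` for almost all real `τ` near every real point of `V`. -/
def Related (P Q : ℝ → ℂ) (V : Set ℂ) (Φ₁ Φ₂ Φ₃ : ℂ → ℂ) : Prop :=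
  (∀ z ∈ V, MeromorphicAt Φ₁ z ∧ MeromorphicAt Φ₂ z ∧ MeromorphicAt Φ₃ z) ∧
  (∀ z ∈ V, (¬ ∀ᶠ w in 𝓝[≠] z, Φ₁ w = 0) ∧ ¬ ∀ᶠ w in 𝓝[≠] z, Φ₂ w = 0) ∧
  ∀ τ₀ : ℝ, (τ₀ : ℂ) ∈ V → ∃ δ : ℝ, 0 < δ ∧ ∀ᵐ τ : ℝ, |τ - τ₀| < δ →
    Φ₁ τ * P τ + Φ₂ τ * Q τ = Φ₃ τ

/-- **Linear relations between two products on the edge.**  Let `E_i` be finitely many elliptic curves
over number fields `K_i`.  There are functions `l_i` on the real line with the following properties.

0. Outside a set of Hausdorff dimension `0`, `l_i(τ) ≠ 0` and `L(E_i, s)` tends to `l_i(τ)` as `s` tends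
   to `3/2 + iτ` in any angle in the half-plane `Re s > 3/2`; and `l_i(-τ) = conj l_i(τ)` for almost
   all `τ`.
Let `a_i`, `b_i` be integers and `t_i`, `u_i` real numbers, `A(s) = ∏_i L(E_i, s + i t_i)^{a_i}`,
`B(s) = ∏_i L(E_i, s + i u_i)^{b_i}`, `P(τ) = ∏_i l_i(τ + t_i)^{a_i}` and
`Q(τ) = ∏_i l_i(-τ + u_i)^{b_i}`.  Let `V` be any set of complex numbers, for example a real point or
`ℂ`.
1. `A` has a continuation which is meromorphic for `Re s > 3/2` and at all points `3/2 + iz`, `z ∈ V`,
   and `B` has one which is meromorphic for `Re s > 3/2` and at all points `3/2 - iz`, `z ∈ V`, if and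
   only if there are functions `Φ₁`, `Φ₂`, `Φ₃`, meromorphic at all points of `V`, `Φ₁` and `Φ₂` not
   identically `0` near any point of `V`, with `Φ₁(τ) P(τ) + Φ₂(τ) Q(τ) = Φ₃(τ)` for almost all real `τ`
   near every real point of `V`.
2. If `V` is connected and contains a real point, then for all such functions and all continuations
   `Λ_A`, `Λ_B` as in 1 the equation `Φ₁(z) Λ_A(3/2 + iz) + Φ₂(z) Λ_B(3/2 - iz) = Φ₃(z)` holds near all
   points of `V` (as an equation between meromorphic functions; where `Im z > 0`, `Λ_B(3/2 - iz)` is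
   the Euler product `B(3/2 - iz)`, so that this is a formula for `Λ_A` to the left of the edge). -/
theorem result {ι : Type} [Fintype ι] (K : ι → Type) [∀ i, Field (K i)] [∀ i, NumberField (K i)]
    (E : ∀ i, WeierstrassCurve (K i)) [∀ i, (E i).IsElliptic]
    (W : ∀ i, HeightOneSpectrum (𝓞 (K i)) → WeierstrassCurve (𝓞 (K i)))
    (_ : ∀ i, MinimalModels (E i) (W i)) :
    ∃ l : ι → ℝ → ℂ,
      (∀ i, (∃ N : Set ℝ, dimH N = 0 ∧ ∀ τ : ℝ, τ ∉ N → l i τ ≠ 0 ∧ ∀ C : ℝ,
        Tendsto (LSeries (W i)) (𝓝[angle τ C] (edge τ)) (𝓝 (l i τ))) ∧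
        ∀ᵐ τ : ℝ, l i (-τ) = conj (l i τ)) ∧
      ∀ (a b : ι → ℤ) (t u : ι → ℝ) (V : Set ℂ),
        (((∃ Λ, IsContinuation (prodL W a t) {s | ∃ z ∈ V, s = edge z} Λ) ∧
            ∃ Λ, IsContinuation (prodL W b u) {s | ∃ z ∈ V, s = edge (-z)} Λ) ↔
          ∃ Φ₁ Φ₂ Φ₃ : ℂ → ℂ,
            Related (boundary l a t) (fun τ => boundary l b u (-τ)) V Φ₁ Φ₂ Φ₃) ∧
        (IsPreconnected V → (∃ τ₁ : ℝ, (τ₁ : ℂ) ∈ V) → ∀ ΛA ΛB Φ₁ Φ₂ Φ₃ : ℂ → ℂ,
          IsContinuation (prodL W a t) {s | ∃ z ∈ V, s = edge z} ΛA →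
          IsContinuation (prodL W b u) {s | ∃ z ∈ V, s = edge (-z)} ΛB →
          Related (boundary l a t) (fun τ => boundary l b u (-τ)) V Φ₁ Φ₂ Φ₃ →
          ∀ z ∈ V, ∀ᶠ w in 𝓝[≠] z, Φ₁ w * ΛA (edge w) + Φ₂ w * ΛB (edge (-w)) = Φ₃ w) := by
  have hlf : ∀ i v s, localFactor (W i) v s = Pool.Agent.TH339.MP.elf (W i) v s := by
    intro i v s
    have h1 : (Nat.card {xy : (𝓞 (K i) ⧸ v.asIdeal) × (𝓞 (K i) ⧸ v.asIdeal) //
            ((W i v).map (Ideal.Quotient.mk v.asIdeal)).toAffine.Equation xy.1 xy.2}) =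
        Pool.Agent.TH339.MP.affc ((W i v).map (Ideal.Quotient.mk v.asIdeal)) := by
      unfold Pool.Agent.TH339.MP.affc
      refine Nat.card_congr (Equiv.subtypeEquivRight fun q => ?_)
      exact WeierstrassCurve.Affine.equation_iff ..
    unfold localFactor Pool.Agent.TH339.MP.elf Pool.Agent.TH339.MP.lfac Pool.Agent.TH339.MP.av
      Pool.Agent.TH339.MP.nm
    rw [h1]
    push_cast
    rfl
  have hL : ∀ i, LSeries (W i) = fun s => ∏' v, Pool.Agent.TH339.MP.elf (W i) v s :=
    fun i => funext fun s => tprod_congr fun v => hlf i v s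
  choose c hc using fun i => Pool.Agent.J6H74.Edge.ec_isEP (W i)
  have hc' : ∀ i, Pool.Agent.J6H74.Edge.IsEP (LSeries (W i)) (c i)
      (Pool.Agent.TH345.ET.hE (W i)) := by
    intro i
    rw [hL i]
    exact hc i
  have hedge : ∀ z : ℂ, Pool.Agent.N881.RP.pt (3 / 2) z = edge z := by
    intro z
    unfold Pool.Agent.N881.RP.pt edge
    push_cast
    rfl
  refine ⟨fun i τ => Pool.Agent.J6H74.Edge.bd (c i) (Pool.Agent.TH345.ET.hE (W i)) τ,
    fun i => ⟨?_, Pool.Agent.J6H74.Lin.bd_symm (W i) (hc i)⟩, fun a b t u V => ?_⟩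
  · obtain ⟨M, hM⟩ := (hc' i).1
    refine ⟨_, (Pool.Agent.TH339.MP.boundary hM).2.1, fun τ hτ =>
      ⟨Pool.Agent.J6H74.Edge.bd_ne (hc' i) τ, fun C => ?_⟩⟩
    have h1 := Pool.Agent.J6H74.Edge.ep_lim (hc' i) hτ C
    rw [hedge] at h1
    have h2 : Pool.Agent.J6H74.Edge.ang τ C = angle τ C := by
      unfold Pool.Agent.J6H74.Edge.ang angle
      rw [hedge]
    rw [h2] at h1
    exact h1
  · have hA := Pool.Agent.J6H74.Edge.ep_family hc' a t
    have hB := Pool.Agent.J6H74.Edge.ep_family hc' b u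
    have hbdA := Pool.Agent.J6H74.Edge.bd_family hc' a t
    have hbdB := (Measure.measurePreserving_neg volume).quasiMeasurePreserving.ae
      (Pool.Agent.J6H74.Edge.bd_family hc' b u)
    -- the two forms of the relation
    have hrel : ∀ Φ₁ Φ₂ Φ₃ : ℂ → ℂ, Pool.Agent.J6H74.TwoP.Rel
        (fun x => ∑ i, (a i : ℂ) * (c i x * Pool.Agent.TH339.MP.ee
          (Pool.Agent.TH339.MP.fr x) (t i)))
        (fun w => ∏ i, Pool.Agent.TH345.ET.hE (W i) (w + t i * Complex.I) ^ a i)
        (fun x => ∑ i, (b i : ℂ) * (c i x * Pool.Agent.TH339.MP.ee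
          (Pool.Agent.TH339.MP.fr x) (u i)))
        (fun w => ∏ i, Pool.Agent.TH345.ET.hE (W i) (w + u i * Complex.I) ^ b i) V Φ₁ Φ₂ Φ₃ ↔
        Related (boundary (fun i τ => Pool.Agent.J6H74.Edge.bd (c i)
          (Pool.Agent.TH345.ET.hE (W i)) τ) a t)
          (fun τ => boundary (fun i τ => Pool.Agent.J6H74.Edge.bd (c i)
            (Pool.Agent.TH345.ET.hE (W i)) τ) b u (-τ)) V Φ₁ Φ₂ Φ₃ := by
      intro Φ₁ Φ₂ Φ₃
      refine and_congr_right fun _ => and_congr ?_ ?_
      · refine forall_congr' fun z => imp_congr_right fun _ => ?_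
        simp only [Filter.Frequently, ne_eq, not_not]
      · refine forall_congr' fun τ₀ => imp_congr_right fun _ => exists_congr fun δ =>
          and_congr_right fun _ => ?_
        constructor
        · intro h
          filter_upwards [h, hbdA, hbdB] with τ h1 h2 h3 h4
          have h5 := h1 h4
          rw [h2, h3] at h5
          exact h5
        · intro h
          filter_upwards [h, hbdA, hbdB] with τ h1 h2 h3 h4
          rw [h2, h3]
          exact h1 h4
    refine ⟨?_, fun hV hτ ΛA ΛB Φ₁ Φ₂ Φ₃ h1 h2 h3 z hz => ?_⟩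
    · have h1 := Pool.Agent.J6H74.TwoP.two_iff hA hB V
      simp_rw [hedge] at h1
      refine Iff.trans h1 (exists_congr fun Φ₁ => exists_congr fun Φ₂ => exists_congr fun Φ₃ =>
        hrel Φ₁ Φ₂ Φ₃)
    · obtain ⟨τ₁, hτ₁⟩ := hτ
      obtain ⟨hm, -, hr⟩ := (hrel Φ₁ Φ₂ Φ₃).2 h3
      obtain ⟨δ, hδ, hr⟩ := hr τ₁ hτ₁
      have h4 := Pool.Agent.J6H74.TwoP.two_identity hA hB hV hτ₁ (ΛA := ΛA) (ΛB := ΛB)
        (fun z hz => h1.1 _ (Or.inr ⟨z, hz, hedge z⟩)) h1.2
        (fun z hz => h2.1 _ (Or.inr ⟨z, hz, hedge (-z)⟩)) h2.2 hm hδ hr hz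
      simp_rw [hedge] at h4
      exact h4

end Pool.Agent.Results.MP_0d9be2_nt.TwoProductRelations
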